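import Pool.Agent.Q79.HW.StmS
import Pool.Agent.H433R3.Ml10
import Pool.Agent.TH279.RI.Asm4

/-!
Job HW-APTS (project HW of helper79): the `A_p` bound for maximal truncations of
Calderon-Zygmund operators.
-/

set_option autoImplicit false

namespace Pool.Agent.Q68.HW

open MeasureTheory Metric Filter Topology
open scoped ENNReal NNReal
open Pool.Agent.H433R3.Sep Pool.Agent.H433R3.Ml
open Pool.Agent.TH279.RI (TS dominStar TS_approx)

variable {d : ℕ} {𝕜 : Type*} [RCLike 𝕜]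

/-- bounded functions with bounded support have finite norms -/
lemma fin_norm {p q : ℝ} (hp : 0 < p) {w : (Fin d → ℝ) → ℝ} (hw : WData q w)
    {f : (Fin d → ℝ) → 𝕜} {B : ℝ≥0} (hB : ∀ x, ‖f x‖ ≤ B) {R : ℝ} (hR : 0 ≤ R)
    (h0 : ∀ x, x ∉ closedBall 0 R → f x = 0) : ∫⁻ x, ‖f x‖ₑ ^ p ∂(WM w) ≠ ∞ := by
  set Q : Set (Fin d → ℝ) := cube (fun _ => -R) (2 * R + 1) with hQ
  have hQm : MeasurableSet Q := by
    rw [hQ]
    unfold cube
    rw [Set.ofPred_forall]
    refine MeasurableSet.iInter fun i => ?_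
    exact (measurableSet_le measurable_const (measurable_pi_apply i)).inter
      (measurableSet_lt (measurable_pi_apply i) measurable_const)
  have hsub : ∀ x, x ∉ Q → f x = 0 := by
    intro x hx
    apply h0
    intro hc
    apply hx
    rw [mem_closedBall, dist_zero_right, pi_norm_le_iff_of_nonneg hR] at hc
    intro i
    have h1 := hc i
    rw [Real.norm_eq_abs, abs_le] at h1
    constructor
    · exact h1.1
    · linarith [h1.2]
  have h1 : ∫⁻ x, ‖f x‖ₑ ^ p ∂(WM w) ≤ ∫⁻ x, Q.indicator (fun _ => (B : ℝ≥0∞) ^ p) x ∂(WM w) := by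
    apply lintegral_mono
    intro x
    show ‖f x‖ₑ ^ p ≤ _
    by_cases hx : x ∈ Q
    · rw [Set.indicator_of_mem hx]
      apply ENNReal.rpow_le_rpow _ hp.le
      rw [← ofReal_norm, ← ENNReal.ofReal_coe_nnreal]
      exact ENNReal.ofReal_le_ofReal (hB x)
    · rw [Set.indicator_of_notMem hx, hsub x hx, enorm_zero, ENNReal.zero_rpow_of_pos hp]
  refine ne_top_of_le_ne_top ?_ h1
  rw [lintegral_indicator_const hQm]
  apply ENNReal.mul_ne_top (ENNReal.rpow_ne_top_of_nonneg hp.le (by simp))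
  rw [WM_apply hw.pos hQm (hw.intw _ _ (by linarith))]
  exact ENNReal.ofReal_ne_top

variable {T : Lp 𝕜 2 (volume : Measure (Fin d → ℝ)) →L[𝕜] Lp 𝕜 2 (volume : Measure (Fin d → ℝ))}
variable {K : (Fin d → ℝ) → (Fin d → ℝ) → 𝕜}

/-- A measurable majorant of the maximal truncation on a cube, with the bound. -/
lemma major (hd : 0 < d) (hT : IsCZO T K) {p q : ℝ} (hpq : p.HolderConjugate q) :
    ∃ C : ℝ≥0, ∀ w : (Fin d → ℝ) → ℝ, WData q w →
    ∀ N : ℝ, 0 ≤ N → OneSup p 1 N w (sg q w) → OneSup q 1 N (sg q w) w →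
    ∀ f : (Fin d → ℝ) → 𝕜, Measurable f → ∀ B : ℝ≥0, (∀ x, ‖f x‖ ≤ B) → ∀ R : ℝ, 0 ≤ R →
      (∀ x, x ∉ closedBall 0 R → f x = 0) → ∀ (t : Fin d → Bool) (I₀ : Idx d),
      closedBall 0 R ⊆ gq t I₀ →
      ∃ W : (Fin d → ℝ) → ℝ≥0∞, Measurable W ∧ (∀ᵐ x, x ∈ gq t I₀ → TS K f x ≤ W x) ∧
        ∫⁻ x, W x ^ p ∂(WM w) ≤ C * ENNReal.ofReal (N ^ p) * ∫⁻ x, ‖f x‖ₑ ^ p ∂(WM w) := by
  classical
  obtain ⟨a, A, ha, hdom⟩ := dominStar hd hT
  have hθ : 1 / p < 1 := by
    rw [div_lt_one hpq.pos]; exact hpq.lt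
  have hη : 1 / q < 1 := by
    rw [div_lt_one hpq.symm.pos]; exact hpq.symm.lt
  obtain ⟨C₀, hC₀⟩ := famBound hd hpq hθ hη a ha
  have hp := hpq.pos
  set A' : ℝ≥0∞ := (A : ℝ≥0∞) ^ p * C₀ * ENNReal.ofReal (2 ^ p) with hA'
  have hA't : A' ≠ ∞ := by
    rw [hA']
    exact ENNReal.mul_ne_top (ENNReal.mul_ne_top
      (ENNReal.rpow_ne_top_of_nonneg hp.le (by simp)) (by simp)) ENNReal.ofReal_ne_top
  refine ⟨A'.toNNReal, ?_⟩
  rw [ENNReal.coe_toNNReal hA't]
  intro w hw N hN hone hone' f hf B hB R hR h0 t I₀ hI₀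
  have hfin : ∫⁻ x, ‖f x‖ₑ ^ p ∂(WM w) ≠ ∞ := fin_norm hp hw hB hR h0
  have hσm := sg_meas hw
  set g₀ : (Fin d → ℝ) → ℝ≥0∞ := fun x => ‖f x‖ₑ * (ENNReal.ofReal (sg q w x))⁻¹ with hg₀
  have hg₀m : Measurable g₀ := hf.enorm.mul hσm.ennreal_ofReal.inv
  have hg₀p : ∫⁻ x, g₀ x ^ p ∂(WM (sg q w)) = ∫⁻ x, ‖f x‖ₑ ^ p ∂(WM w) :=
    g0_pow hpq hw (fun x => ‖f x‖ₑ) hf.enorm
  have havg : ∀ I, avg a t f I =
      (∫⁻ z in dil a t I, g₀ z ∂(WM (sg q w))) / volume (dil a t I) := by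
    intro I
    unfold avg WM
    rw [setLIntegral_withDensity_eq_setLIntegral_mul volume hσm.ennreal_ofReal hg₀m
      (dil_meas a t I)]
    congr 1
    apply lintegral_congr
    intro x
    simp only [Pi.mul_apply, hg₀]
    have hs := sg_pos hw x
    have h1 : ENNReal.ofReal (sg q w x) ≠ 0 := by simpa using hs
    calc ‖f x‖ₑ = (ENNReal.ofReal (sg q w x) * (ENNReal.ofReal (sg q w x))⁻¹) * ‖f x‖ₑ := by
          rw [ENNReal.mul_inv_cancel h1 ENNReal.ofReal_ne_top, one_mul]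
      _ = _ := by ring
  obtain ⟨S, E, hE1, hE2, hE3, hE4, hE5⟩ := hdom f hf B hB 0 R h0 t I₀ hI₀
  have hS2 : ∀ s : Finset S,
      ∫⁻ y, (∑ I ∈ s, (gq t (I : Idx d)).indicator (fun _ => avg a t f I) y) ^ p ∂(WM w) ≤
        C₀ * ENNReal.ofReal ((N + N) ^ p) * ∫⁻ x, ‖f x‖ₑ ^ p ∂(WM w) := by
    intro s
    have h2 := (hC₀ w hw N hN hone t (s.map (Function.Embedding.subtype _)) E
      (by
        intro I hI
        obtain ⟨I', _, rfl⟩ := Finset.mem_map.1 hI
        exact hE1 _ I'.2)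
      (by
        intro I hI
        obtain ⟨I', _, rfl⟩ := Finset.mem_map.1 hI
        exact hE2 _ I'.2)
      (by
        intro I hI
        obtain ⟨I', _, rfl⟩ := Finset.mem_map.1 hI
        exact hE3 _ I'.2)
      (by
        intro I hI J hJ
        obtain ⟨I', _, rfl⟩ := Finset.mem_map.1 hI
        obtain ⟨J', _, rfl⟩ := Finset.mem_map.1 hJ
        exact hE4 _ I'.2 _ J'.2)
      g₀ hg₀m (by rw [hg₀p]; exact hfin)).2 N hN hone'
    have e : ∀ y, ∑ I ∈ s.map (Function.Embedding.subtype _), (gq t I).indicator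
        (fun _ => (∫⁻ z in dil a t I, g₀ z ∂(WM (sg q w))) / volume (dil a t I)) y =
        ∑ I ∈ s, (gq t (I : Idx d)).indicator (fun _ => avg a t f I) y := by
      intro y
      rw [Finset.sum_map]
      apply Finset.sum_congr rfl
      intro I _
      rw [havg]
      rfl
    simp only [e] at h2
    rw [hg₀p] at h2
    exact h2
  have hmS : ∀ s : Finset S, Measurable (fun x => ∑ I ∈ s, (gq t (I : Idx d)).indicator
      (fun _ => avg a t f I) x) := by
    intro s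
    apply Finset.measurable_fun_sum
    intro I _
    exact measurable_const.indicator (gq_meas _ _)
  have hsup : ∀ x, (∑' I : S, (gq t (I : Idx d)).indicator (fun _ => avg a t f I) x) ^ p =
      ⨆ s : Finset S, (∑ I ∈ s, (gq t (I : Idx d)).indicator (fun _ => avg a t f I) x) ^ p := by
    intro x
    rw [ENNReal.tsum_eq_iSup_sum]
    exact (Monotone.map_iSup_of_continuousAt (f := fun y : ℝ≥0∞ => y ^ p)
      ENNReal.continuous_rpow_const.continuousAt
      (fun a b hab => ENNReal.rpow_le_rpow hab hp.le)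
      (by simp [hp]))
  have hAp : (A : ℝ≥0∞) ^ p ≠ ∞ := ENNReal.rpow_ne_top_of_nonneg hp.le (by simp)
  refine ⟨fun x => A * ∑' I : S, (gq t (I : Idx d)).indicator (fun _ => avg a t f I) x, ?_, hE5, ?_⟩
  · apply Measurable.const_mul
    apply Measurable.ennreal_tsum
    intro I
    exact measurable_const.indicator (gq_meas _ _)
  · have hdir : Directed (· ≤ ·) (fun (s : Finset S) (x : Fin d → ℝ) =>
        (∑ I ∈ s, (gq t (I : Idx d)).indicator (fun _ => avg a t f I) x) ^ p) := by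
      intro s s'
      refine ⟨s ∪ s', fun x => ?_, fun x => ?_⟩
      · exact ENNReal.rpow_le_rpow
          (Finset.sum_le_sum_of_subset Finset.subset_union_left) hp.le
      · exact ENNReal.rpow_le_rpow
          (Finset.sum_le_sum_of_subset Finset.subset_union_right) hp.le
    calc ∫⁻ x, (A * ∑' I : S, (gq t (I : Idx d)).indicator
              (fun _ => avg a t f I) x) ^ p ∂(WM w)
        = (A : ℝ≥0∞) ^ p * ∫⁻ x, (∑' I : S, (gq t (I : Idx d)).indicator
              (fun _ => avg a t f I) x) ^ p ∂(WM w) := by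
            simp_rw [ENNReal.mul_rpow_of_nonneg _ _ hp.le]
            rw [lintegral_const_mul' _ _ hAp]
      _ = (A : ℝ≥0∞) ^ p * ⨆ s : Finset S, ∫⁻ x, (∑ I ∈ s, (gq t (I : Idx d)).indicator
              (fun _ => avg a t f I) x) ^ p ∂(WM w) := by
            simp_rw [hsup]
            rw [lintegral_iSup_directed (fun s => ((hmS s).pow_const p).aemeasurable) hdir]
      _ ≤ (A : ℝ≥0∞) ^ p * (C₀ * ENNReal.ofReal ((N + N) ^ p) *
              ∫⁻ x, ‖f x‖ₑ ^ p ∂(WM w)) :=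
            mul_le_mul' le_rfl (iSup_le hS2)
      _ = _ := by
            rw [show (N + N) ^ p = 2 ^ p * N ^ p by
              rw [← two_mul, Real.mul_rpow (by norm_num) hN],
              ENNReal.ofReal_mul (by positivity), hA']
            ring

/-- **APTS** for all dimensions and both fields. -/
theorem aptsG (hd : 0 < d) (hT : IsCZO T K) {p q : ℝ} (hpq : p.HolderConjugate q) :
    ∃ C : ℝ≥0, ∀ w : (Fin d → ℝ) → ℝ, WData q w →
    ∀ N : ℝ, 0 ≤ N → OneSup p 1 N w (sg q w) → OneSup q 1 N (sg q w) w →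
    ∀ f : (Fin d → ℝ) → 𝕜, Measurable f →
      ∫⁻ x, TS K f x ^ p ∂(WM w) ≤ C * ENNReal.ofReal (N ^ p) * ∫⁻ x, ‖f x‖ₑ ^ p ∂(WM w) := by
  obtain ⟨C, hC⟩ := major hd hT hpq
  have hp := hpq.pos
  refine ⟨C, ?_⟩
  intro w hw N hN hone hone' f hf
  set A : ℕ → Set (Fin d → ℝ) := fun k => {y | ‖f y‖ ≤ k} ∩ closedBall 0 k with hA
  have hAm : ∀ k, MeasurableSet (A k) := fun k =>
    (measurableSet_le hf.norm measurable_const).inter measurableSet_closedBall
  have hev : ∀ x, ∀ᶠ k in atTop, x ∈ A k := by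
    intro x
    obtain ⟨N, hN⟩ := exists_nat_ge (max ‖f x‖ ‖x‖)
    filter_upwards [eventually_ge_atTop N] with k hk
    have hk' : (N : ℝ) ≤ k := by exact_mod_cast hk
    refine ⟨?_, ?_⟩
    · exact (le_max_left _ _).trans (hN.trans hk')
    · rw [mem_closedBall, dist_zero_right]
      exact (le_max_right _ _).trans (hN.trans hk')
  set hk : ℕ → (Fin d → ℝ) → 𝕜 := fun k => (A k).indicator f with hhk
  have hhkm : ∀ k, Measurable (hk k) := fun k => hf.indicator (hAm k)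
  have hbd : ∀ k y, ‖hk k y‖ ≤ ((k : ℝ≥0) : ℝ) := by
    intro k y
    by_cases hy : y ∈ A k
    · simp only [hhk]
      rw [Set.indicator_of_mem hy]
      have := hy.1
      simpa using this
    · simp only [hhk]
      rw [Set.indicator_of_notMem hy, norm_zero]
      exact NNReal.coe_nonneg _
  have hsupp : ∀ (k : ℕ) y, y ∉ closedBall (0 : Fin d → ℝ) (k : ℝ) → hk k y = 0 := by
    intro k y hy
    simp only [hhk]
    exact Set.indicator_of_notMem (fun h' => hy h'.2) _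
  have hball : ∀ k : ℕ, ∃ j : ℕ, closedBall (0 : Fin d → ℝ) (k : ℝ) ⊆
      gq (fun _ => true) (ix (fun _ => true) (j:ℤ) 0) := by
    intro k
    obtain ⟨N, hN⟩ := exists_ball (d := d) (k : ℝ) (Nat.cast_nonneg k)
    exact ⟨N, hN N le_rfl⟩
  choose j hj using hball
  have hW := fun k : ℕ => hC w hw N hN hone hone' (hk k) (hhkm k) (k : ℝ≥0) (hbd k) (k : ℝ)
    (Nat.cast_nonneg k) (hsupp k) (fun _ => true) (ix (fun _ => true) (j k : ℤ) 0) (hj k)
  choose W hWm hWae hWstrong using hW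
  have hgle : ∀ k, ∫⁻ y, ‖hk k y‖ₑ ^ p ∂(WM w) ≤ ∫⁻ y, ‖f y‖ₑ ^ p ∂(WM w) := by
    intro k
    apply lintegral_mono
    intro y
    apply ENNReal.rpow_le_rpow _ hp.le
    simp only [hhk]
    by_cases hy : y ∈ A k
    · rw [Set.indicator_of_mem hy]
    · rw [Set.indicator_of_notMem hy, enorm_zero]
      exact zero_le
  have hac : WM w ≪ volume := withDensity_absolutelyContinuous _ _
  have hae : ∀ᵐ x ∂(WM w), ∀ lam : ℝ≥0∞, lam < TS K f x → ∀ᶠ k in atTop, lam < W k x := by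
    have h1 : ∀ᵐ x, ∀ k, x ∈ gq (fun _ => true) (ix (fun _ => true) (j k : ℤ) 0) →
        TS K (hk k) x ≤ W k x := ae_all_iff.2 hWae
    filter_upwards [hac.ae_le h1] with x hx lam hlam
    have h2 := TS_approx K f A hAm hev x lam hlam
    filter_upwards [h2, hev x] with k hk1 hk2
    exact lt_of_lt_of_le hk1 (hx k (hj k hk2.2))
  have h1 : ∀ᵐ x ∂(WM w), TS K f x ^ p ≤ liminf (fun k => W k x ^ p) atTop := by
    filter_upwards [hae] with x hx
    apply le_of_forall_lt_imp_le_of_dense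
    intro c hc
    have hc' : c ^ p⁻¹ < TS K f x := by
      rw [ENNReal.rpow_inv_lt_iff hp]
      exact hc
    apply le_liminf_of_le
    · isBoundedDefault
    · filter_upwards [hx _ hc'] with k hk1
      rw [ENNReal.rpow_inv_lt_iff hp] at hk1
      exact hk1.le
  calc ∫⁻ x, TS K f x ^ p ∂(WM w)
      ≤ ∫⁻ x, liminf (fun k => W k x ^ p) atTop ∂(WM w) := lintegral_mono_ae h1
    _ ≤ liminf (fun k => ∫⁻ x, W k x ^ p ∂(WM w)) atTop :=
        lintegral_liminf_le (fun k => (hWm k).pow_const p)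
    _ ≤ liminf (fun _ : ℕ => C * ENNReal.ofReal (N ^ p) * ∫⁻ y, ‖f y‖ₑ ^ p ∂(WM w)) atTop := by
        exact liminf_le_liminf (Eventually.of_forall (fun k =>
          (hWstrong k).trans (mul_le_mul' le_rfl (hgle k))))
    _ = _ := by rw [liminf_const]

/-- Job HW-APTS. -/
theorem apts : Pool.Agent.Q79.HW.S_APTS := by
  intro d hd T K hT p q hpq
  obtain ⟨C, hC⟩ := aptsG hd hT hpq
  exact ⟨C, fun w hw N hN h1 h2 f hf => hC w hw N hN h1 h2 f hf⟩

end Pool.Agent.Q68.HW
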