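import Pool.Agent.Q79.HW.StmS

/-!
Job HW-CZ (project HW of helper79): `1/(x - y)` is the kernel of a Calderon-Zygmund operator on
`Fin 1 → ℝ`.
-/

set_option autoImplicit false

namespace Pool.Agent.Q68.HW

open MeasureTheory Metric Filter Topology
open scoped ENNReal NNReal Real ContDiff
open Pool.Agent.H433R3.Sep (el)
open Pool.Agent.Q79.HW (K₁ S_KER S_CZ)
open Pool.Agent.Helper604.UMD (HL)

/-- the measurable equivalence with the line -/
noncomputable def ev : (Fin 1 → ℝ) ≃ᵐ ℝ := MeasurableEquiv.funUnique (Fin 1) ℝ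

lemma ev_apply (x : Fin 1 → ℝ) : ev x = x 0 := rfl

lemma ev_symm_apply (t : ℝ) (i : Fin 1) : ev.symm t i = t := rfl

lemma ev_symm_ev (x : Fin 1 → ℝ) : ev.symm (ev x) = x := ev.symm_apply_apply x

lemma mp_ev : MeasurePreserving ev volume volume := volume_preserving_funUnique (Fin 1) ℝ

lemma mp_mk : MeasurePreserving ev.symm volume volume := mp_ev.symm

lemma ev_symm_eq : (ev.symm : ℝ → (Fin 1 → ℝ)) = fun t _ => t := rfl

lemma mk_cont : Continuous (ev.symm : ℝ → (Fin 1 → ℝ)) := by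
  rw [ev_symm_eq]
  exact continuous_pi fun _ => continuous_id

lemma mk_contDiff {n : WithTop ℕ∞} : ContDiff ℝ n (ev.symm : ℝ → (Fin 1 → ℝ)) := by
  rw [ev_symm_eq]
  exact contDiff_pi.2 fun _ => contDiff_id

lemma el_one (x : Fin 1 → ℝ) : el x = |x 0| := by
  unfold el
  rw [Fin.sum_univ_one, Real.sqrt_sq_eq_abs]

/-- the operator -/
noncomputable def TT : Lp ℂ 2 (volume : Measure (Fin 1 → ℝ)) →L[ℂ]
    Lp ℂ 2 (volume : Measure (Fin 1 → ℝ)) :=
  (π : ℂ) • ((Lp.compMeasurePreservingₗᵢ ℂ ev mp_ev).toContinuousLinearMap.comp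
    (HL.comp (Lp.compMeasurePreservingₗᵢ ℂ ev.symm mp_mk).toContinuousLinearMap))

lemma TT_apply (f : Lp ℂ 2 (volume : Measure (Fin 1 → ℝ))) :
    TT f = (π : ℂ) • Lp.compMeasurePreserving ev mp_ev
      (HL (Lp.compMeasurePreserving ev.symm mp_mk f)) := rfl

lemma reg_aux {a b : ℝ} (h : 2 * |a - b| < |a|) :
    ‖(1 / (a : ℂ)) - 1 / (b : ℂ)‖ ≤ 2 * |a - b| / |a| ^ 2 := by
  have ha : 0 < |a| := lt_of_le_of_lt (by positivity) h
  have ha' : a ≠ 0 := abs_pos.1 ha
  have hb : |a| ≤ 2 * |b| := by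
    have h1 := abs_sub_abs_le_abs_sub a b
    linarith
  have hb0 : 0 < |b| := by linarith
  have hb' : b ≠ 0 := abs_pos.1 hb0
  have e : (1 / (a : ℂ)) - 1 / (b : ℂ) = (((b - a) / (a * b) : ℝ) : ℂ) := by
    push_cast
    have h1 : (a : ℂ) ≠ 0 := by exact_mod_cast ha'
    have h2 : (b : ℂ) ≠ 0 := by exact_mod_cast hb'
    field_simp
  rw [e, Complex.norm_real, Real.norm_eq_abs, abs_div, abs_mul, abs_sub_comm b a,
    div_le_div_iff₀ (by positivity) (by positivity)]
  have h3 : |a - b| * |a| ^ 2 ≤ |a - b| * (|a| * (2 * |b|)) := by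
    apply mul_le_mul_of_nonneg_left _ (abs_nonneg _)
    rw [pow_two]
    exact mul_le_mul_of_nonneg_left hb ha.le
  linarith

/-- Job HW-CZ. -/
theorem cz (h : S_KER) : S_CZ := by
  refine ⟨TT, ?_, ?_, ?_⟩
  · intro f hf hsm hcs
    set g : ℝ → ℂ := f ∘ ev.symm with hg
    have hgs : ContDiff ℝ ∞ g := hsm.comp mk_contDiff
    have hgc : HasCompactSupport g :=
      hcs.comp_homeomorph (Homeomorph.funUnique (Fin 1) ℝ).symm
    have hgm : MemLp g 2 (volume : Measure ℝ) := hf.comp_measurePreserving mp_mk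
    have h1 := h g hgs hgc hgm
    have h2 := mp_ev.quasiMeasurePreserving.ae h1
    have h3 := Lp.coeFn_compMeasurePreserving (HL (hgm.toLp g)) mp_ev
    have h4 := Lp.coeFn_smul (π : ℂ) (Lp.compMeasurePreserving ev mp_ev (HL (hgm.toLp g)))
    filter_upwards [h2, h3, h4] with x hx2 hx3 hx4 hx
    have e1 : TT (hf.toLp f) = (π : ℂ) • Lp.compMeasurePreserving ev mp_ev
        (HL (hgm.toLp g)) := rfl
    rw [e1, hx4, Pi.smul_apply, hx3, Function.comp_apply, hx2]
    · have e2 : ∫ y, K₁ x y * f y = ∫ t, g t / ((x 0 - t : ℝ) : ℂ) := by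
        rw [← mp_mk.integral_comp' (g := fun y => K₁ x y * f y)]
        apply integral_congr_ae
        filter_upwards with t
        unfold K₁
        rw [hg, Function.comp_apply, ev_symm_apply]
        ring
      rw [e2, ev_apply, smul_eq_mul, ← mul_assoc]
      have h5 : (π : ℂ) * ((1 / π : ℝ) : ℂ) = 1 := by
        rw [← Complex.ofReal_mul, mul_one_div_cancel Real.pi_ne_zero, Complex.ofReal_one]
      rw [h5, one_mul]
    · intro hc
      apply hx
      have h6 : tsupport g ⊆ ev.symm ⁻¹' tsupport f := tsupport_comp_subset_preimage f mk_cont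
      have h7 := h6 hc
      rw [Set.mem_preimage, ev_symm_ev] at h7
      exact h7
  · refine ⟨1, fun x y hxy => ?_⟩
    rw [el_one, pow_one, Pi.sub_apply]
    unfold K₁
    rw [norm_div, norm_one, Complex.norm_real, Real.norm_eq_abs]
  · refine ⟨4, 1, one_pos, fun x z y hxy => ?_⟩
    rw [el_one, el_one, Pi.sub_apply, Pi.sub_apply] at hxy ⊢
    set a : ℝ := x 0 - y 0 with ha
    set b : ℝ := z 0 - y 0 with hb
    have hab : x 0 - z 0 = a - b := by rw [ha, hb]; ring
    rw [hab] at hxy ⊢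
    have h1 := reg_aux hxy
    have h2 := reg_aux (a := -a) (b := -b) (by
      rw [abs_neg, show -a - -b = -(a - b) by ring, abs_neg]; exact hxy)
    rw [abs_neg, show -a - -b = -(a - b) by ring, abs_neg] at h2
    have e1 : K₁ x y = 1 / (a : ℂ) := rfl
    have e2 : K₁ z y = 1 / (b : ℂ) := rfl
    have e3 : K₁ y x = 1 / ((-a : ℝ) : ℂ) := by
      unfold K₁
      rw [ha]; congr 2; ring
    have e4 : K₁ y z = 1 / ((-b : ℝ) : ℂ) := by
      unfold K₁
      rw [hb]; congr 2; ring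
    rw [e1, e2, e3, e4, Real.rpow_one]
    have e5 : |a| ^ (((1 : ℕ) : ℝ) + 1) = |a| ^ 2 := by
      rw [Nat.cast_one, show (1 : ℝ) + 1 = ((2 : ℕ) : ℝ) by norm_num, Real.rpow_natCast]
    rw [e5]
    calc _ ≤ 2 * |a - b| / |a| ^ 2 + 2 * |a - b| / |a| ^ 2 := add_le_add h1 h2
      _ = _ := by ring

end Pool.Agent.Q68.HW
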