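import Pool.Agent.Q68.HW.Apts
import Pool.Agent.Q68.HW.Cz

/-!
Job HW-LINE (project HW of helper79): the theorem of Hunt, Muckenhoupt and Wheeden on the line, for
the maximal truncation.
-/

set_option autoImplicit false

namespace Pool.Agent.Q68.HW

open MeasureTheory Metric Filter Topology Set
open scoped ENNReal NNReal Real
open Pool.Agent.H433R3.Sep (el cube)
open Pool.Agent.H433R3.Ml (WData OneSup sg sg_pos WM AV)
open Pool.Agent.TH279.RI (TS)
open Pool.Agent.Q79.HW (K₁ S_CZ S_APTS S_LINE MemAp IsWeight TSR)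

/-! ### Positivity of the weight -/

section Pos

variable {p : ℝ} {W : ℝ → ℝ}

theorem W_pos (hp : 1 < p) (h : MemAp p W) : ∀ᵐ x, 0 < W x := by
  obtain ⟨C, hC⟩ := h.bdd
  have hp1 : 0 < p - 1 := by linarith
  have hm := h.weight.meas
  by_contra hcon
  have hZ : volume {x | W x = 0} ≠ 0 := by
    intro h0
    apply hcon
    have h1 : ∀ᵐ x, W x ≠ 0 := by
      rw [ae_iff]
      simpa using h0
    filter_upwards [h1] with x hx
    exact lt_of_le_of_ne (h.weight.nonneg x) (Ne.symm hx)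
  have hP : volume {x | W x ≠ 0} ≠ 0 := by
    intro h0
    apply h.weight.nonzero
    rw [ae_iff]
    exact h0
  have key : ∀ S : Set ℝ, volume S ≠ 0 → ∃ n : ℕ, ∀ m : ℕ, n ≤ m →
      volume (S ∩ Ioo (-(m : ℝ)) m) ≠ 0 := by
    intro S hS
    by_contra hc
    push Not at hc
    apply hS
    have hU : S ⊆ ⋃ n : ℕ, S ∩ Ioo (-(n : ℝ)) n := by
      intro x hx
      obtain ⟨n, hn⟩ := exists_nat_gt |x|
      rw [abs_lt] at hn
      exact mem_iUnion.2 ⟨n, hx, hn⟩
    refine measure_mono_null hU (measure_iUnion_null fun n => ?_)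
    obtain ⟨m, hm, h0⟩ := hc n
    refine measure_mono_null (inter_subset_inter_right S (Ioo_subset_Ioo ?_ ?_)) h0
    · have : (n : ℝ) ≤ m := by exact_mod_cast hm
      linarith
    · exact_mod_cast hm
  obtain ⟨n1, h1⟩ := key _ hZ
  obtain ⟨n2, h2⟩ := key _ hP
  set m : ℕ := max (max n1 n2) 1 with hm'
  have g1 := h1 m ((le_max_left _ _).trans (le_max_left _ _))
  have g2 := h2 m ((le_max_right _ _).trans (le_max_left _ _))
  have hm1 : (1 : ℝ) ≤ m := by exact_mod_cast le_max_right (max n1 n2) 1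
  have hb := hC (-(m : ℝ)) m (by linarith)
  have hne : C * ENNReal.ofReal ((m : ℝ) - -(m : ℝ)) ^ p ≠ ∞ :=
    ENNReal.mul_ne_top ENNReal.coe_ne_top
      (ENNReal.rpow_ne_top_of_nonneg (by linarith) ENNReal.ofReal_ne_top)
  have hX : ∫⁻ x in Ioo (-(m : ℝ)) m, ENNReal.ofReal (W x) ≠ 0 := by
    intro h0
    rw [lintegral_eq_zero_iff hm.ennreal_ofReal] at h0
    apply g2
    have h3 : volume.restrict (Ioo (-(m : ℝ)) m) {x | W x ≠ 0} = 0 := by
      have h4 : ∀ᵐ x ∂volume.restrict (Ioo (-(m : ℝ)) m), W x = 0 := by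
        filter_upwards [h0] with x hx
        rw [Pi.zero_apply, ENNReal.ofReal_eq_zero] at hx
        exact le_antisymm hx (h.weight.nonneg x)
      rw [ae_iff] at h4
      exact h4
    rwa [Measure.restrict_apply' measurableSet_Ioo] at h3
  have hY : ∫⁻ x in Ioo (-(m : ℝ)) m, ENNReal.ofReal (W x) ^ (-(1 / (p - 1))) = ∞ := by
    rw [eq_top_iff]
    have hZm : MeasurableSet {x | W x = 0} := measurableSet_eq_fun hm measurable_const
    calc (∞ : ℝ≥0∞) = ∞ * volume ({x | W x = 0} ∩ Ioo (-(m : ℝ)) m) := by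
          rw [ENNReal.top_mul g1]
      _ = ∫⁻ x in {x | W x = 0} ∩ Ioo (-(m : ℝ)) m, ∞ := by rw [setLIntegral_const]
      _ = ∫⁻ x in {x | W x = 0} ∩ Ioo (-(m : ℝ)) m,
            ENNReal.ofReal (W x) ^ (-(1 / (p - 1))) := by
          apply setLIntegral_congr_fun (hZm.inter measurableSet_Ioo)
          intro x hx
          have : W x = 0 := hx.1
          show ∞ = ENNReal.ofReal (W x) ^ (-(1 / (p - 1)))
          rw [this, ENNReal.ofReal_zero, ENNReal.zero_rpow_of_neg]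
          have : 0 < 1 / (p - 1) := by positivity
          linarith
      _ ≤ _ := lintegral_mono_set inter_subset_right
  rw [hY, ENNReal.top_rpow_of_pos hp1, ENNReal.mul_top hX] at hb
  exact hne (top_le_iff.1 hb)

end Pos

/-! ### The modified weight -/

/-- `W` made positive everywhere -/
noncomputable def mw (W : ℝ → ℝ) (x : ℝ) : ℝ := if 0 < W x then W x else 1

/-- the weight on `Fin 1 → ℝ` -/
noncomputable def ww (W : ℝ → ℝ) (x : Fin 1 → ℝ) : ℝ := mw W (ev x)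

theorem mw_pos (W : ℝ → ℝ) (x : ℝ) : 0 < mw W x := by
  unfold mw
  split_ifs with h
  · exact h
  · exact one_pos

section Main

variable {p q : ℝ} {W : ℝ → ℝ}

theorem mw_ae (hp : 1 < p) (h : MemAp p W) : mw W =ᵐ[volume] W := by
  filter_upwards [W_pos hp h] with x hx
  unfold mw
  rw [if_pos hx]

theorem mw_meas (h : MemAp p W) : Measurable (mw W) :=
  Measurable.ite (measurableSet_lt measurable_const h.weight.meas) h.weight.meas measurable_const

theorem ex_eq (hpq : p.HolderConjugate q) : 1 - q = -(1 / (p - 1)) := by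
  have hp1 := hpq.sub_one_pos
  have h := hpq.sub_one_mul_conj
  field_simp
  linarith [h]

/-- `∫_I W` -/
noncomputable def XX (W : ℝ → ℝ) (a b : ℝ) : ℝ := ∫ t in Ico a b, mw W t

/-- `∫_I W^{1-q}` -/
noncomputable def YY (q : ℝ) (W : ℝ → ℝ) (a b : ℝ) : ℝ := ∫ t in Ico a b, mw W t ^ (1 - q)

theorem X_int (hp : 1 < p) (h : MemAp p W) (a b : ℝ) : IntegrableOn (mw W) (Ico a b) := by
  have h1 : IntegrableOn W (Icc a b) :=
    h.weight.loc.integrableOn_isCompact isCompact_Icc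
  exact (h1.mono_set Ico_subset_Icc_self).congr_fun_ae (ae_restrict_of_ae (mw_ae hp h).symm)

theorem lX (hp : 1 < p) (h : MemAp p W) (a b : ℝ) :
    ∫⁻ t in Ico a b, ENNReal.ofReal (mw W t) = ∫⁻ t in Ioo a b, ENNReal.ofReal (W t) := by
  rw [setLIntegral_congr (Ioo_ae_eq_Ico (a := a) (b := b) (μ := volume)).symm]
  apply lintegral_congr_ae
  filter_upwards [ae_restrict_of_ae (mw_ae hp h)] with x hx
  rw [hx]

theorem lY (hpq : p.HolderConjugate q) (h : MemAp p W) (a b : ℝ) :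
    ∫⁻ t in Ico a b, ENNReal.ofReal (mw W t ^ (1 - q)) =
      ∫⁻ t in Ioo a b, ENNReal.ofReal (W t) ^ (-(1 / (p - 1))) := by
  rw [setLIntegral_congr (Ioo_ae_eq_Ico (a := a) (b := b) (μ := volume)).symm]
  apply lintegral_congr_ae
  filter_upwards [ae_restrict_of_ae (mw_ae hpq.lt h)] with x hx
  rw [← hx, ENNReal.ofReal_rpow_of_pos (mw_pos W x), ex_eq hpq]

theorem X_pos (hp : 1 < p) (h : MemAp p W) {a b : ℝ} (hab : a < b) : 0 < XX W a b := by
  unfold XX
  rw [setIntegral_pos_iff_support_of_nonneg_ae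
    (Filter.Eventually.of_forall fun x => (mw_pos W x).le) (X_int hp h a b)]
  have : Function.support (mw W) = Set.univ := by
    ext x; simp [(mw_pos W x).ne']
  rw [this, Set.univ_inter, Real.volume_Ico]
  simpa using hab

theorem Y_fin (hpq : p.HolderConjugate q) (h : MemAp p W) {a b : ℝ} (hab : a < b) :
    ∫⁻ t in Ico a b, ENNReal.ofReal (mw W t ^ (1 - q)) ≠ ∞ := by
  obtain ⟨C, hC⟩ := h.bdd
  have hp1 := hpq.sub_one_pos
  have h1 := hC a b hab
  rw [← lX hpq.lt h, ← lY hpq h] at h1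
  intro hY
  rw [hY, ENNReal.top_rpow_of_pos hp1, ENNReal.mul_top] at h1
  · have hne : C * ENNReal.ofReal (b - a) ^ p ≠ ∞ :=
      ENNReal.mul_ne_top ENNReal.coe_ne_top
        (ENNReal.rpow_ne_top_of_nonneg hpq.pos.le ENNReal.ofReal_ne_top)
    exact hne (top_le_iff.1 h1)
  · rw [← ofReal_integral_eq_lintegral_ofReal (X_int hpq.lt h a b)
      (Filter.Eventually.of_forall fun x => (mw_pos W x).le)]
    exact (ENNReal.ofReal_pos.2 (X_pos hpq.lt h hab)).ne'

theorem Y_int (hpq : p.HolderConjugate q) (h : MemAp p W) {a b : ℝ} (hab : a < b) :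
    IntegrableOn (fun t => mw W t ^ (1 - q)) (Ico a b) := by
  refine ⟨((mw_meas h).pow_const _).aestronglyMeasurable, ?_⟩
  rw [hasFiniteIntegral_iff_ofReal (Filter.Eventually.of_forall fun x =>
    (Real.rpow_pos_of_pos (mw_pos W x) _).le)]
  exact lt_top_iff_ne_top.2 (Y_fin hpq h hab)

theorem XY (hpq : p.HolderConjugate q) (h : MemAp p W) : ∃ C : ℝ, 0 ≤ C ∧ ∀ a b : ℝ, a < b →
    XX W a b * YY q W a b ^ (p - 1) ≤ C * (b - a) ^ p := by
  obtain ⟨C, hC⟩ := h.bdd
  refine ⟨C, C.coe_nonneg, fun a b hab => ?_⟩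
  have hp1 := hpq.sub_one_pos
  have h1 := hC a b hab
  rw [← lX hpq.lt h, ← lY hpq h,
    ← ofReal_integral_eq_lintegral_ofReal (X_int hpq.lt h a b)
      (Filter.Eventually.of_forall fun x => (mw_pos W x).le),
    ← ofReal_integral_eq_lintegral_ofReal (Y_int hpq h hab)
      (Filter.Eventually.of_forall fun x => (Real.rpow_pos_of_pos (mw_pos W x) _).le)] at h1
  have hX : 0 ≤ XX W a b := (X_pos hpq.lt h hab).le
  have hY : 0 ≤ YY q W a b := integral_nonneg fun x => (Real.rpow_pos_of_pos (mw_pos W x) _).le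
  change ENNReal.ofReal (XX W a b) * ENNReal.ofReal (YY q W a b) ^ (p - 1) ≤ _ at h1
  rw [ENNReal.ofReal_rpow_of_nonneg hY hp1.le, ← ENNReal.ofReal_mul hX,
    ENNReal.ofReal_rpow_of_nonneg (by linarith) hpq.pos.le, ← ENNReal.ofReal_coe_nnreal,
    ← ENNReal.ofReal_mul C.coe_nonneg] at h1
  exact (ENNReal.ofReal_le_ofReal_iff (mul_nonneg C.coe_nonneg
    (Real.rpow_nonneg (by linarith) _))).1 h1

/-! ### Transfer -/

theorem cube_eq (c : Fin 1 → ℝ) (l : ℝ) : cube c l = ev ⁻¹' Ico (c 0) (c 0 + l) := by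
  ext x
  unfold cube
  rw [Set.mem_ofPred_eq, Set.mem_preimage, Set.mem_Ico, ev_apply]
  constructor
  · intro h; exact h 0
  · intro h i
    rw [Subsingleton.elim i 0]
    exact h

theorem cube_vol (c : Fin 1 → ℝ) {l : ℝ} (hl : 0 < l) : (volume (cube c l)).toReal = l := by
  rw [cube_eq, mp_ev.measure_preimage_equiv, Real.volume_Ico, add_sub_cancel_left,
    ENNReal.toReal_ofReal hl.le]

theorem AV_comp (g : ℝ → ℝ) (c : Fin 1 → ℝ) {l : ℝ} (hl : 0 < l) :
    AV (fun x => g (ev x)) (cube c l) = l⁻¹ * ∫ t in Ico (c 0) (c 0 + l), g t := by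
  unfold AV
  rw [cube_vol c hl, cube_eq, mp_ev.setIntegral_preimage_emb ev.measurableEmbedding]

theorem intOn_comp {g : ℝ → ℝ} (c : Fin 1 → ℝ) {l : ℝ}
    (hg : IntegrableOn g (Ico (c 0) (c 0 + l))) : IntegrableOn (fun x => g (ev x)) (cube c l) := by
  rw [cube_eq]
  exact (mp_ev.integrableOn_comp_preimage ev.measurableEmbedding).2 hg

theorem sg_ww (q : ℝ) (W : ℝ → ℝ) : sg q (ww W) = fun x => (mw W (ev x)) ^ (1 - q) := rfl

theorem wdata (hpq : p.HolderConjugate q) (h : MemAp p W) : WData q (ww W) := by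
  refine ⟨(mw_meas h).comp ev.measurable, fun x => mw_pos W _, fun c l hl => ?_, fun c l hl => ?_⟩
  · exact intOn_comp c (X_int hpq.lt h _ _)
  · rw [sg_ww]
    exact intOn_comp (g := fun t => mw W t ^ (1 - q)) c (Y_int hpq h (by linarith))

theorem base (hpq : p.HolderConjugate q) (h : MemAp p W) : ∃ C : ℝ, 0 ≤ C ∧
    ∀ (c : Fin 1 → ℝ) (l : ℝ), 0 < l →
      0 ≤ AV (ww W) (cube c l) ∧ 0 ≤ AV (sg q (ww W)) (cube c l) ∧
      AV (ww W) (cube c l) * AV (sg q (ww W)) (cube c l) ^ (p - 1) ≤ C := by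
  obtain ⟨C, hC0, hC⟩ := XY hpq h
  refine ⟨C, hC0, fun c l hl => ?_⟩
  have h1 : AV (ww W) (cube c l) = l⁻¹ * XX W (c 0) (c 0 + l) := AV_comp (mw W) c hl
  have h2 : AV (sg q (ww W)) (cube c l) = l⁻¹ * YY q W (c 0) (c 0 + l) :=
    AV_comp (fun t => mw W t ^ (1 - q)) c hl
  have hX : 0 ≤ XX W (c 0) (c 0 + l) := (X_pos hpq.lt h (by linarith)).le
  have hY : 0 ≤ YY q W (c 0) (c 0 + l) :=
    integral_nonneg fun x => (Real.rpow_pos_of_pos (mw_pos W x) _).le
  have hl' : 0 ≤ l⁻¹ := inv_nonneg.2 hl.le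
  rw [h1, h2]
  refine ⟨mul_nonneg hl' hX, mul_nonneg hl' hY, ?_⟩
  have h3 := hC (c 0) (c 0 + l) (by linarith)
  rw [add_sub_cancel_left] at h3
  rw [Real.mul_rpow hl' hY]
  have e : l⁻¹ * (l⁻¹) ^ (p - 1) = (l ^ p)⁻¹ := by
    rw [← Real.inv_rpow hl.le]
    nth_rewrite 1 [← Real.rpow_one (l⁻¹)]
    rw [← Real.rpow_add (inv_pos.2 hl)]
    congr 1; ring
  have hlp : 0 < l ^ p := Real.rpow_pos_of_pos hl p
  calc _ = (l⁻¹ * (l⁻¹) ^ (p - 1)) *
      (XX W (c 0) (c 0 + l) * YY q W (c 0) (c 0 + l) ^ (p - 1)) := by ring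
    _ ≤ (l ^ p)⁻¹ * (C * l ^ p) := by
        rw [e]
        exact mul_le_mul_of_nonneg_left h3 (inv_nonneg.2 hlp.le)
    _ = C := by
        field_simp

theorem onesup (hpq : p.HolderConjugate q) (h : MemAp p W) : ∃ N : ℝ, 0 ≤ N ∧
    OneSup p 1 N (ww W) (sg q (ww W)) ∧ OneSup q 1 N (sg q (ww W)) (ww W) := by
  obtain ⟨C, hC0, hC⟩ := base hpq h
  have hp1 := hpq.sub_one_pos
  have hq1 := hpq.symm.sub_one_pos
  have hpp : (p - 1) * (q - 1) = 1 := by
    have := hpq.inv_add_inv_eq_one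
    have hp := hpq.pos
    have hq := hpq.symm.pos
    field_simp at this
    nlinarith
  refine ⟨max C (C ^ (q - 1)), le_max_of_le_left hC0, fun c l hl => ?_, fun c l hl => ?_⟩
  · obtain ⟨h1, h2, h3⟩ := hC c l hl
    rw [sub_self, Real.rpow_zero, mul_one, Real.rpow_one]
    exact h3.trans (le_max_left _ _)
  · obtain ⟨h1, h2, h3⟩ := hC c l hl
    rw [sub_self, Real.rpow_zero, mul_one, Real.rpow_one]
    refine le_trans ?_ (le_max_right _ _)
    have h4 := Real.rpow_le_rpow (mul_nonneg h1 (Real.rpow_nonneg h2 _)) h3 hq1.le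
    rw [Real.mul_rpow h1 (Real.rpow_nonneg h2 _), ← Real.rpow_mul h2, hpp, Real.rpow_one] at h4
    rw [mul_comm]
    exact h4

theorem TS_eq (f : ℝ → ℂ) (x : Fin 1 → ℝ) : TS K₁ (fun y => f (ev y)) x = TSR f (ev x) := by
  unfold TS TSR
  have key : ∀ δ : ℝ, ∫ y in {y : Fin 1 → ℝ | δ < el (x - y)}, K₁ x y * f (ev y) =
      ∫ t in {t : ℝ | δ < |t - ev x|}, f t / ((ev x - t : ℝ) : ℂ) := by
    intro δ
    have e : {y : Fin 1 → ℝ | δ < el (x - y)} = ev ⁻¹' {t : ℝ | δ < |t - ev x|} := by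
      ext y
      rw [Set.mem_ofPred_eq, Set.mem_preimage, Set.mem_ofPred_eq, el_one, Pi.sub_apply,
        abs_sub_comm, ev_apply, ev_apply]
    rw [e, ← mp_ev.setIntegral_preimage_emb ev.measurableEmbedding]
    apply integral_congr_ae
    filter_upwards with y
    unfold K₁
    rw [ev_apply, ev_apply]
    ring
  simp only [key]

theorem transfer (hp : 1 < p) (h : MemAp p W) (G : ℝ → ℝ≥0∞) :
    ∫⁻ x, G (ev x) ∂(WM (ww W)) = ∫⁻ t, G t * ENNReal.ofReal (W t) := by
  unfold WM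
  rw [lintegral_withDensity_eq_lintegral_mul_non_measurable _
    (show Measurable fun x => ENNReal.ofReal (ww W x) from
      ((mw_meas h).comp ev.measurable).ennreal_ofReal)
    (Filter.Eventually.of_forall fun x => ENNReal.ofReal_lt_top)]
  have h1 := mp_ev.lintegral_comp_emb ev.measurableEmbedding
    (fun t => ENNReal.ofReal (mw W t) * G t)
  calc _ = ∫⁻ t, ENNReal.ofReal (mw W t) * G t := by
        rw [← h1]
        rfl
    _ = _ := by
        apply lintegral_congr_ae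
        filter_upwards [mw_ae hp h] with x hx
        rw [hx, mul_comm]

end Main

/-- Job HW-LINE. -/
theorem line (h1 : S_CZ) (h2 : S_APTS) : S_LINE := by
  intro p hp W hW
  obtain ⟨T, hT⟩ := h1
  obtain ⟨q, hpq⟩ : ∃ q, p.HolderConjugate q := ⟨_, Real.HolderConjugate.conjExponent hp⟩
  obtain ⟨C, hC⟩ := h2 1 one_pos T K₁ (Pool.Agent.TH266.RI.IsCZ.isCZO one_pos hT) p q hpq
  obtain ⟨N, hN0, hN1, hN2⟩ := onesup hpq hW
  refine ⟨C * (N ^ p).toNNReal, fun f hf => ?_⟩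
  have h3 := hC (ww W) (wdata hpq hW) N hN0 hN1 hN2 (fun y => f (ev y)) (hf.comp ev.measurable)
  simp only [TS_eq] at h3
  rw [transfer hp hW (fun t => TSR f t ^ p), transfer hp hW (fun t => ‖f t‖ₑ ^ p)] at h3
  rw [ENNReal.coe_mul]
  exact h3

/-- Jobs HW-LINE, HW-CZ and HW-APTS together. -/
theorem line' (h : Pool.Agent.Q79.HW.S_KER) : S_LINE := line (cz h) apts

end Pool.Agent.Q68.HW
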